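import Pool.Agent.Helper62.DSH.StC

/-!
# Project DSH, module DDZ: the exterior derivative has square zero
-/

set_option autoImplicit false

open Set Filter Topology MeasureTheory
open scoped ContDiff ENNReal

noncomputable section

namespace Pool.Agent.Helper97.DSH

open Helper62.LH Helper62.DSH

/-- DDZ -/
theorem hDdz (hBrc : TBrc) (hFmk : TFmk) : TDdz := by
  intro n j g Γ F G hg hΓ hF β hβ hal x
  obtain ⟨φ, hφ, hc⟩ := hFmk n j g Γ F G hg hF β hβ hal
  have hcp : β = cp F φ := funext fun y => (hc y).symm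
  obtain ⟨-, -, h3, h4⟩ := hBrc n j g Γ F G hg hΓ hF φ hφ
  have h5 : dF F G β = cp F (fun y => extDeriv φ y) := by
    funext y
    rw [hcp]
    exact h4 y
  obtain ⟨-, -, -, h6⟩ := hBrc n (j + 1) g Γ F G hg hΓ hF (fun y => extDeriv φ y) h3
  rw [h5, h6 x]
  have h7 : extDeriv (extDeriv φ) = 0 := extDeriv_extDeriv hφ (by
    simp only [minSmoothness_of_isRCLikeNormedField]
    exact WithTop.coe_le_coe.2 (le_top : (2 : ℕ∞) ≤ ⊤))
  funext I
  have h8 : extDeriv (fun y => extDeriv φ y) x = 0 := by
    have := congrFun h7 x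
    simpa using this
  simp [cp, h8]

end Pool.Agent.Helper97.DSH
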